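import Pool.Agent.H1.ED.T2

/-! # MP_2de571_an, class (a): global uniqueness with one measurement for the ellipses whose confocal double lies in the domain

Definitions used by the statement: `IsTest`, `Sob`, `cond`, `Solves`, `SameTrace` (in `Pool/Agent/H12/MDM/PDE.lean`).
-/

namespace Pool.Agent.Results.MP_2de571_an.DeepEllipses

open MD12 ED1 MeasureTheory Set Filter Topology
open scoped MeasureTheory

/-- the open ellipse with foci `f₁`, `f₂` and major axis `2 a` -/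
def ellipse (f₁ f₂ : ℂ) (a : ℝ) : Set ℂ := {z | ‖z - f₁‖ + ‖z - f₂‖ < 2 * a}

/-- the closed ellipse with foci `f₁`, `f₂` and major axis `2 a` -/
def cellipse (f₁ f₂ : ℂ) (a : ℝ) : Set ℂ := {z | ‖z - f₁‖ + ‖z - f₂‖ ≤ 2 * a}

/-- `ellipse f₁ f₂ a` is an ellipse (not a disk), and the closed confocal ellipse with the doubled elliptic radius is in `Ω`:
with half axes `a`, `b` and `c = ‖f₁ - f₂‖ / 2`, the half axes of the double are `(a² + b²)/c = 2a²/c - c` and `2ab/c` -/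
def Deep (Ω : Set ℂ) (f₁ f₂ : ℂ) (a : ℝ) : Prop :=
  f₁ ≠ f₂ ∧ ‖f₁ - f₂‖ < 2 * a ∧ cellipse f₁ f₂ (4 * a ^ 2 / ‖f₁ - f₂‖ - ‖f₁ - f₂‖ / 2) ⊆ Ω

/-- the foci are determined, whatever the conductivities are; for equal conductivities the ellipse is determined -/
theorem result (Ω : Set ℂ) (hΩo : IsOpen Ω) (hΩb : Bornology.IsBounded Ω) (hΩc : IsConnected Ω)
    (hσ : μH[1] (frontier Ω) < ⊤) (k₁ k₂ : ℝ) (hk₁ : 0 < k₁) (hk₁' : k₁ ≠ 1) (hk₂ : 0 < k₂) (hk₂' : k₂ ≠ 1)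
    (f₁ f₂ f₃ f₄ : ℂ) (a a' : ℝ) (hD₁ : Deep Ω f₁ f₂ a) (hD₂ : Deep Ω f₃ f₄ a')
    (g : ℂ → ℝ) (hg : MemLp g 2 (μH[1].restrict (frontier Ω)))
    (hg0 : ¬ g =ᵐ[μH[1].restrict (frontier Ω)] 0) (u₁ u₂ : ℂ → ℝ) (G₁ G₂ : ℂ → ℂ)
    (h₁ : Solves Ω k₁ (ellipse f₁ f₂ a) g u₁ G₁) (h₂ : Solves Ω k₂ (ellipse f₃ f₄ a') g u₂ G₂)
    (htr : SameTrace Ω u₁ u₂ G₁ G₂) :
    ((f₃ = f₁ ∧ f₄ = f₂) ∨ (f₃ = f₂ ∧ f₄ = f₁)) ∧ (k₁ = k₂ → ellipse f₁ f₂ a = ellipse f₃ f₄ a') := by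
  obtain ⟨hf, ha, hD⟩ := hD₁
  obtain ⟨hf', ha', hD'⟩ := hD₂
  obtain ⟨z₀, b, x, hb, hx, e1, e2, e3, e4⟩ := exists_par hf ha
  obtain ⟨z₁, c, x', hc, hx', d1, d2, d3, d4⟩ := exists_par hf' ha'
  have hlv : ∀ z, lv z₀ b z = ‖z - f₁‖ + ‖z - f₂‖ := fun z => by
    rw [e1, e2]
    rfl
  have hlv' : ∀ z, lv z₁ c z = ‖z - f₃‖ + ‖z - f₄‖ := fun z => by
    rw [d1, d2]
    rfl
  have hell : ellipse f₁ f₂ a = De z₀ b x := by
    unfold ellipse De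
    ext z
    simp only [Set.mem_setOf_eq, hlv, e3]
  have hell' : ellipse f₃ f₄ a' = De z₁ c x' := by
    unfold ellipse De
    ext z
    simp only [Set.mem_setOf_eq, hlv', d3]
  have hcell : {z | lv z₀ b z ≤ lx b (2 * x)} ⊆ Ω := by
    intro z hz
    apply hD
    unfold cellipse
    have h1 : lv z₀ b z ≤ lx b (2 * x) := hz
    rw [hlv, e4] at h1
    exact h1
  have hcell' : {z | lv z₁ c z ≤ lx c (2 * x')} ⊆ Ω := by
    intro z hz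
    apply hD'
    unfold cellipse
    have h1 : lv z₁ c z ≤ lx c (2 * x') := hz
    rw [hlv', d4] at h1
    exact h1
  rw [hell] at h₁
  rw [hell'] at h₂
  obtain ⟨hz, hcb, hkx⟩ := main2 hΩo hΩb hΩc.isPreconnected hσ hk₁ hk₁' hk₂ hk₂' hb hx hcell hc hx' hcell' hg hg0
    ⟨h₁.sob, h₁.eq⟩ ⟨h₂.sob, h₂.eq⟩ htr
  have hfoc : (f₃ = f₁ ∧ f₄ = f₂) ∨ (f₃ = f₂ ∧ f₄ = f₁) := by
    rcases hcb with h | h
    · left
      rw [d1, d2, e1, e2, hz, h]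
      exact ⟨rfl, rfl⟩
    · right
      rw [d1, d2, e1, e2, hz, h]
      constructor <;> ring
  refine ⟨hfoc, fun hk => ?_⟩
  have hxx := hkx hk
  have haa : a = a' := by
    have h5 : lx c x' = lx b x' := by
      rcases hcb with h | h
      · rw [h]
      · rw [h]
        unfold lx
        rw [norm_neg]
    rw [h5, ← hxx, e3] at d3
    linarith
  rw [← haa]
  rcases hfoc with ⟨h6, h7⟩ | ⟨h6, h7⟩
  · rw [h6, h7]
  · rw [h6, h7]
    unfold ellipse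
    ext z
    simp only [Set.mem_setOf_eq]
    rw [add_comm]

end Pool.Agent.Results.MP_2de571_an.DeepEllipses
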