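import Pool.Agent.H1.EX.T6
import Pool.Agent.H1.EX.Xi
import Pool.Agent.H1.LD.T8

/-! # MP_2de571_an, class (a): local uniqueness with one measurement for ellipses, every conductivity

Definitions used by the statement: `IsTest`, `Sob`, `cond`, `Solves`, `SameTrace` (in `Pool/Agent/H12/MDM/PDE.lean`).
-/

namespace Pool.Agent.Results.MP_2de571_an.LocalUniqueness

open MD12 ED1 EW1 EX1 MeasureTheory Set Filter Topology
open scoped MeasureTheory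

/-- the open ellipse with center `c`, half axes `α` (in the direction `e^(iθ)`) and `β` -/
def ellipse (c : ℂ) (α β θ : ℝ) : Set ℂ :=
  {z | ∃ x y : ℝ, x ^ 2 + y ^ 2 < 1 ∧ z = c + Complex.exp (θ * Complex.I) * (α * x + β * y * Complex.I)}

/-- the closed ellipse -/
def cellipse (c : ℂ) (α β θ : ℝ) : Set ℂ :=
  {z | ∃ x y : ℝ, x ^ 2 + y ^ 2 ≤ 1 ∧ z = c + Complex.exp (θ * Complex.I) * (α * x + β * y * Complex.I)}

/-- an ellipse (a disk if `β = α`) with closure in `Ω` -/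
def Adm (Ω : Set ℂ) (c : ℂ) (α β θ : ℝ) : Prop := 0 < β ∧ β ≤ α ∧ cellipse c α β θ ⊆ Ω

/-- with conductivity `k` and Neumann data `g` the inclusions `D₁`, `D₂` give the same boundary values -/
def SameData (Ω D₁ D₂ : Set ℂ) (g : ℂ → ℝ) (k : ℝ) : Prop :=
  ∃ (u₁ u₂ : ℂ → ℝ) (G₁ G₂ : ℂ → ℂ), Solves Ω k D₁ g u₁ G₁ ∧ Solves Ω k D₂ g u₂ G₂ ∧ SameTrace Ω u₁ u₂ G₁ G₂

/-- for the conductivity `k` (and in every domain) two different ellipses (disks included) with axis ratio at least `q` whose centers and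
half axes differ by at most `δ α₁` and whose directions differ by at most `δ` are distinguished by every measurement -/
def Locally (q k δ : ℝ) : Prop :=
  ∀ Ω : Set ℂ, IsOpen Ω → Bornology.IsBounded Ω → IsConnected Ω → μH[1] (frontier Ω) < ⊤ →
    ∀ (c₁ c₂ : ℂ) (α₁ β₁ θ₁ α₂ β₂ θ₂ : ℝ), Adm Ω c₁ α₁ β₁ θ₁ → Adm Ω c₂ α₂ β₂ θ₂ → q * α₁ ≤ β₁ → q * α₂ ≤ β₂ →
    ‖c₁ - c₂‖ ≤ δ * α₁ → |α₁ - α₂| ≤ δ * α₁ → |β₁ - β₂| ≤ δ * α₁ →
    ‖Complex.exp (2 * θ₁ * Complex.I) - Complex.exp (2 * θ₂ * Complex.I)‖ ≤ δ →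
    ∀ g : ℂ → ℝ, MemLp g 2 (μH[1].restrict (frontier Ω)) → ¬ g =ᵐ[μH[1].restrict (frontier Ω)] 0 →
    SameData Ω (ellipse c₁ α₁ β₁ θ₁) (ellipse c₂ α₂ β₂ θ₂) g k → ellipse c₁ α₁ β₁ θ₁ = ellipse c₂ α₂ β₂ θ₂

private theorem ratio_le {q : ℝ} (hq : 0 < q) {α β : ℝ} (hβ : 0 < β) (hα : β ≤ α) (hqα : q * α ≤ β) :
    (α - β) / (α + β) ≤ (1 - q) / (1 + q) := by
  rw [div_le_div_iff₀ (by linarith) (by linarith)]
  nlinarith

private theorem kL {κ k : ℝ} (hκ : 1 < κ) (hk₁ : 1 / κ ≤ k) (hk₂ : k ≤ κ) : 0 < k ∧ |(k - 1) / (k + 1)| ≤ (κ - 1) / (κ + 1) := by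
  have hk : 0 < k := lt_of_lt_of_le (by positivity) hk₁
  have hkκ : 1 ≤ κ * k := by
    have := mul_le_mul_of_nonneg_left hk₁ (by linarith : (0 : ℝ) ≤ κ)
    rwa [mul_one_div_cancel (by linarith)] at this
  refine ⟨hk, ?_⟩
  rw [abs_div, abs_of_pos (by linarith : (0 : ℝ) < k + 1), div_le_div_iff₀ (by linarith) (by linarith)]
  rcases abs_cases (k - 1) with ⟨h, -⟩ | ⟨h, -⟩ <;> rw [h] <;> nlinarith

private theorem close {κ q : ℝ} (hκ : 1 < κ) (hq : 0 < q) : ∃ δ : ℝ, 0 < δ ∧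
    ∀ k : ℝ, 1 / κ ≤ k → k ≤ κ → k ≠ 1 → Locally q k δ := by
  have hL : (κ - 1) / (κ + 1) < 1 := by
    rw [div_lt_one (by linarith)]
    linarith
  have h1 : max 0 ((1 - q) / (1 + q)) < 1 := by
    refine max_lt one_pos ?_
    rw [div_lt_one (by linarith)]
    linarith
  obtain ⟨δ, hδ, hmain⟩ := LD1.main7 hL (le_max_left 0 ((1 - q) / (1 + q))) h1
  refine ⟨min (1 / 2) (δ / 9), by positivity, ?_⟩
  intro k hk₁ hk₂ hk1 Ω hΩo hΩb hΩc hσ c₁ c₂ α₁ β₁ θ₁ α₂ β₂ θ₂ hA₁ hA₂ hq₁ hq₂ hc hα hβ hθ g hg hg0 hs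
  obtain ⟨hk, hkL⟩ := kL hκ hk₁ hk₂
  obtain ⟨u₁, u₂, G₁, G₂, h₁, h₂, ht⟩ := hs
  obtain ⟨e1, e2, e3⟩ := ell_Dp c₁ hA₁.1 hA₁.2.1 θ₁
  obtain ⟨d1, d2, d3⟩ := ell_Dp c₂ hA₂.1 hA₂.2.1 θ₂
  have e1' : ellipse c₁ α₁ β₁ θ₁ = _ := e1
  have d1' : ellipse c₂ α₂ β₂ θ₂ = _ := d1
  rw [e1'] at h₁
  rw [d1'] at h₂
  have hα₁ : 0 < α₁ := hA₁.1.trans_le hA₁.2.1
  have hα₂ : 0 < α₂ := hA₂.1.trans_le hA₂.2.1
  have hβ₁ := hA₁.1
  have hβ₂ := hA₂.1
  obtain ⟨η, hη⟩ : ∃ η : ℝ, η = min (1 / 2) (δ / 9) := ⟨_, rfl⟩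
  rw [← hη] at hc hα hβ hθ
  have hη2 : η ≤ 1 / 2 := by rw [hη]; exact min_le_left _ _
  have hη9 : 9 * η ≤ δ := by
    have : η ≤ δ / 9 := by rw [hη]; exact min_le_right _ _
    linarith
  have hη0 : 0 < η := by rw [hη]; positivity
  have hα' := abs_le.1 hα
  have hβ' := abs_le.1 hβ
  have hαr : η * α₁ ≤ 2 * η * ((α₁ + β₁) / 2) := by nlinarith
  have hδr : 2 * η * ((α₁ + β₁) / 2) ≤ δ * ((α₁ + β₁) / 2) := by
    refine mul_le_mul_of_nonneg_right (by linarith) (by linarith)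
  obtain ⟨f1, f2, f3⟩ := hmain k hk hk1 hkL Ω hΩo hΩb hΩc.isPreconnected hσ c₁ ((α₁ + β₁) / 2)
    (((α₁ - β₁) / (α₁ + β₁) : ℝ) * Complex.exp (2 * θ₁ * Complex.I)) c₂ ((α₂ + β₂) / 2)
    (((α₂ - β₂) / (α₂ + β₂) : ℝ) * Complex.exp (2 * θ₂ * Complex.I)) (by linarith) (by linarith)
    (by rw [e3]; exact (ratio_le hq hA₁.1 hA₁.2.1 hq₁).trans (le_max_right _ _))
    (by rw [d3]; exact (ratio_le hq hA₂.1 hA₂.2.1 hq₂).trans (le_max_right _ _))
    (by rw [norm_sub_rev]; exact hc.trans (hαr.trans hδr))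
    (by
      rw [abs_le]
      constructor <;> nlinarith)
    (by
      obtain ⟨s₁, hs₁⟩ : ∃ s : ℝ, s = (α₁ - β₁) / (α₁ + β₁) := ⟨_, rfl⟩
      obtain ⟨s₂, hs₂⟩ : ∃ s : ℝ, s = (α₂ - β₂) / (α₂ + β₂) := ⟨_, rfl⟩
      rw [← hs₁, ← hs₂]
      have hs1 : |s₁| ≤ 1 := by
        rw [hs₁, abs_div, abs_of_nonneg (by linarith [hA₁.2.1] : (0 : ℝ) ≤ α₁ - β₁), abs_of_pos (by linarith : (0 : ℝ) < α₁ + β₁),
          div_le_one (by linarith)]
        linarith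
      have hs12 : |s₁ - s₂| ≤ 8 * η := by
        have e : s₁ - s₂ = 2 * (α₁ * (β₂ - β₁) + β₁ * (α₁ - α₂)) / ((α₁ + β₁) * (α₂ + β₂)) := by
          rw [hs₁, hs₂, div_sub_div _ _ (by linarith) (by linarith)]
          congr 1
          ring
        rw [e, abs_div, abs_of_pos (by positivity : (0 : ℝ) < (α₁ + β₁) * (α₂ + β₂)), div_le_iff₀ (by positivity)]
        have hnum : |2 * (α₁ * (β₂ - β₁) + β₁ * (α₁ - α₂))| ≤ 4 * η * α₁ ^ 2 := by
          rw [abs_mul, abs_of_pos (by norm_num : (0 : ℝ) < 2)]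
          have t1 : |α₁ * (β₂ - β₁)| ≤ α₁ * (η * α₁) := by
            rw [abs_mul, abs_of_pos hα₁, abs_sub_comm]
            gcongr
          have t2 : |β₁ * (α₁ - α₂)| ≤ α₁ * (η * α₁) := by
            rw [abs_mul, abs_of_pos hβ₁]
            exact mul_le_mul hA₁.2.1 hα (abs_nonneg _) hα₁.le
          have := (abs_add_le (α₁ * (β₂ - β₁)) (β₁ * (α₁ - α₂))).trans (add_le_add t1 t2)
          nlinarith
        refine hnum.trans ?_
        have hα2 : α₁ / 2 ≤ α₂ := by nlinarith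
        have t3 : α₁ * (α₁ / 2) ≤ (α₁ + β₁) * (α₂ + β₂) := by
          refine mul_le_mul (by linarith) (by linarith) (by linarith) (by linarith)
        nlinarith
      have e : (s₁ : ℂ) * Complex.exp (2 * θ₁ * Complex.I) - s₂ * Complex.exp (2 * θ₂ * Complex.I) =
          s₁ * (Complex.exp (2 * θ₁ * Complex.I) - Complex.exp (2 * θ₂ * Complex.I)) +
            ((s₁ - s₂ : ℝ) : ℂ) * Complex.exp (2 * θ₂ * Complex.I) := by
        push_cast
        ring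
      rw [e]
      refine (norm_add_le _ _).trans ?_
      rw [norm_mul, norm_mul, Complex.norm_real, Complex.norm_real, Real.norm_eq_abs, Real.norm_eq_abs]
      have e4 : ‖Complex.exp (2 * θ₂ * Complex.I)‖ = 1 := by
        have : (2 * θ₂ * Complex.I : ℂ) = ((2 * θ₂ : ℝ) : ℂ) * Complex.I := by push_cast; ring
        rw [this, Complex.norm_exp_ofReal_mul_I]
      rw [e4, mul_one]
      have t4 : |s₁| * ‖Complex.exp (2 * θ₁ * Complex.I) - Complex.exp (2 * θ₂ * Complex.I)‖ ≤ 1 * η :=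
        mul_le_mul hs1 hθ (norm_nonneg _) zero_le_one
      linarith)
    (by rw [← e2]; exact hA₁.2.2) (by rw [← d2]; exact hA₂.2.2) g u₁ u₂ G₁ G₂ hg hg0 ⟨h₁.sob, h₁.eq⟩ ⟨h₂.sob, h₂.eq⟩ ht
  rw [e1', d1', f1, f2, f3]

/-- **Local uniqueness with one measurement for all ellipses, every conductivity**, uniform in the domain, the measurement, the size and
position of the ellipses, and locally uniform in the axis ratio and the conductivity: for every `κ > 1` and `q > 0` there is `δ > 0` with: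
for every `k ≠ 1` in `[1/κ, κ]` two different ellipses with axis ratio at least `q` which differ by at most `δ` (relative to their size) are
distinguished by every measurement in every domain -/
theorem result :
    ∀ κ : ℝ, 1 < κ → ∀ q : ℝ, 0 < q → ∃ δ : ℝ, 0 < δ ∧ ∀ k : ℝ, 1 / κ ≤ k → k ≤ κ → k ≠ 1 → Locally q k δ :=
  fun _ hκ _ hq => close hκ hq

end Pool.Agent.Results.MP_2de571_an.LocalUniqueness
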