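import Pool.Agent.H12.MDM.H

/-! # MP_2de571_an, class (c): multiple disks have global uniqueness with one measurement

Definitions used by the statement (in `Pool/Agent/H12/MDM/PDE.lean`): `IsTest`, `Sob`, `cond`, `Solves`, `SameTrace`, `MDisk`.
Overview of the proof: `H12_MULTIDISK.md`.
-/

namespace Pool.Agent.Results.MP_2de571_an.MultipleDisks

open MD12 Metric MeasureTheory
open scoped MeasureTheory

/-- `D` is a multiple disk in `Ω`: a finite union of open disks with pairwise disjoint closures, all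
contained in `Ω` -/
def IsMultiDisk (Ω D : Set ℂ) : Prop :=
  ∃ s : Finset (ℂ × ℝ), MDisk Ω s ∧ D = ⋃ c ∈ s, ball c.1 c.2

theorem result (Ω : Set ℂ) (hΩo : IsOpen Ω) (hΩb : Bornology.IsBounded Ω) (hΩc : IsConnected Ω)
    (hΩs : IsConnected Ωᶜ) (hσ : μH[1] (frontier Ω) < ⊤) (k : ℝ) (hk : 0 < k) (hk1 : k ≠ 1)
    (D₁ D₂ : Set ℂ) (hD₁ : IsMultiDisk Ω D₁) (hD₂ : IsMultiDisk Ω D₂) (g : ℂ → ℝ)
    (hg : MemLp g 2 (μH[1].restrict (frontier Ω)))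
    (hg0 : ¬ g =ᵐ[μH[1].restrict (frontier Ω)] 0) (u₁ u₂ : ℂ → ℝ) (G₁ G₂ : ℂ → ℂ)
    (h₁ : Solves Ω k D₁ g u₁ G₁) (h₂ : Solves Ω k D₂ g u₂ G₂)
    (htr : SameTrace Ω u₁ u₂ G₁ G₂) : D₁ = D₂ := by
  obtain ⟨s₁, hs₁, rfl⟩ := hD₁
  obtain ⟨s₂, hs₂, rfl⟩ := hD₂
  exact mainMD hΩo hΩb hΩc hΩs hσ hk hk1 hs₁ hs₂ hg hg0 h₁ h₂ htr

end Pool.Agent.Results.MP_2de571_an.MultipleDisks
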