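import Pool.Agent.H1.EX.T6
import Pool.Agent.H1.EX.Xi
import Pool.Agent.H1.ND.T7

/-! # MP_2de571_an, class (a): global uniqueness with one measurement: ellipses of bounded axis ratio for conductivities close to one,
nearly circular ellipses for every conductivity

Definitions used by the statement: `IsTest`, `Sob`, `cond`, `Solves`, `SameTrace` (in `Pool/Agent/H12/MDM/PDE.lean`).
-/

namespace Pool.Agent.Results.MP_2de571_an.WeakContrast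

open MD12 ED1 EW1 EX1 MeasureTheory Set Filter Topology
open scoped MeasureTheory

/-- the open ellipse with center `c`, half axes `α` (in the direction `e^(iθ)`) and `β` -/
def ellipse (c : ℂ) (α β θ : ℝ) : Set ℂ :=
  {z | ∃ x y : ℝ, x ^ 2 + y ^ 2 < 1 ∧ z = c + Complex.exp (θ * Complex.I) * (α * x + β * y * Complex.I)}

/-- the closed ellipse -/
def cellipse (c : ℂ) (α β θ : ℝ) : Set ℂ :=
  {z | ∃ x y : ℝ, x ^ 2 + y ^ 2 ≤ 1 ∧ z = c + Complex.exp (θ * Complex.I) * (α * x + β * y * Complex.I)}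

/-- an ellipse (a disk if `β = α`) with closure in `Ω` -/
def Adm (Ω : Set ℂ) (c : ℂ) (α β θ : ℝ) : Prop := 0 < β ∧ β ≤ α ∧ cellipse c α β θ ⊆ Ω

/-- with conductivity `k` and Neumann data `g` the inclusions `D₁`, `D₂` give the same boundary values -/
def SameData (Ω D₁ D₂ : Set ℂ) (g : ℂ → ℝ) (k : ℝ) : Prop :=
  ∃ (u₁ u₂ : ℂ → ℝ) (G₁ G₂ : ℂ → ℂ), Solves Ω k D₁ g u₁ G₁ ∧ Solves Ω k D₂ g u₂ G₂ ∧ SameTrace Ω u₁ u₂ G₁ G₂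

/-- for the conductivity `k` (and in every domain) the ellipses (disks included) with axis ratio at least `q` have global uniqueness
with one measurement -/
def GlobalUniqueness (q k : ℝ) : Prop :=
  ∀ Ω : Set ℂ, IsOpen Ω → Bornology.IsBounded Ω → IsConnected Ω → μH[1] (frontier Ω) < ⊤ →
    ∀ (c₁ c₂ : ℂ) (α₁ β₁ θ₁ α₂ β₂ θ₂ : ℝ), Adm Ω c₁ α₁ β₁ θ₁ → Adm Ω c₂ α₂ β₂ θ₂ → q * α₁ ≤ β₁ → q * α₂ ≤ β₂ →
    ∀ g : ℂ → ℝ, MemLp g 2 (μH[1].restrict (frontier Ω)) → ¬ g =ᵐ[μH[1].restrict (frontier Ω)] 0 →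
    SameData Ω (ellipse c₁ α₁ β₁ θ₁) (ellipse c₂ α₂ β₂ θ₂) g k → ellipse c₁ α₁ β₁ θ₁ = ellipse c₂ α₂ β₂ θ₂

private theorem ratio_le {q : ℝ} (hq : 0 < q) {α β : ℝ} (hβ : 0 < β) (hα : β ≤ α) (hqα : q * α ≤ β) :
    (α - β) / (α + β) ≤ (1 - q) / (1 + q) := by
  rw [div_le_div_iff₀ (by linarith) (by linarith)]
  nlinarith

/-- from the parameters `(c, r, μ)` to the half axes -/
private theorem transfer {q k E : ℝ} (hq : 0 < q) (hE : (1 - q) / (1 + q) ≤ E)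
    (hmain : ∀ Ω : Set ℂ, IsOpen Ω → Bornology.IsBounded Ω → IsPreconnected Ω → μH[1] (frontier Ω) < ⊤ →
      ∀ (c₁ : ℂ) (r₁ : ℝ) (μ₁ c₂ : ℂ) (r₂ : ℝ) (μ₂ : ℂ), 0 < r₁ → 0 < r₂ → ‖μ₁‖ ≤ E → ‖μ₂‖ ≤ E →
      Kp c₁ r₁ μ₁ ⊆ Ω → Kp c₂ r₂ μ₂ ⊆ Ω →
      ∀ (g u₁ u₂ : ℂ → ℝ) (G₁ G₂ : ℂ → ℂ), MemLp g 2 (μH[1].restrict (frontier Ω)) →
      ¬ g =ᵐ[μH[1].restrict (frontier Ω)] 0 →
      SolvesC Ω (MD12.cond k (Dp c₁ r₁ μ₁ 1)) g u₁ G₁ → SolvesC Ω (MD12.cond k (Dp c₂ r₂ μ₂ 1)) g u₂ G₂ →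
      SameTrace Ω u₁ u₂ G₁ G₂ → c₁ = c₂ ∧ r₁ = r₂ ∧ μ₁ = μ₂) : GlobalUniqueness q k := by
  intro Ω hΩo hΩb hΩc hσ c₁ c₂ α₁ β₁ θ₁ α₂ β₂ θ₂ hA₁ hA₂ hq₁ hq₂ g hg hg0 hs
  obtain ⟨u₁, u₂, G₁, G₂, h₁, h₂, ht⟩ := hs
  obtain ⟨e1, e2, e3⟩ := ell_Dp c₁ hA₁.1 hA₁.2.1 θ₁
  obtain ⟨d1, d2, d3⟩ := ell_Dp c₂ hA₂.1 hA₂.2.1 θ₂
  have e1' : ellipse c₁ α₁ β₁ θ₁ = _ := e1
  have d1' : ellipse c₂ α₂ β₂ θ₂ = _ := d1
  rw [e1'] at h₁
  rw [d1'] at h₂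
  obtain ⟨f1, f2, f3⟩ := hmain Ω hΩo hΩb hΩc.isPreconnected hσ _ _ _ _ _ _
    (by linarith [hA₁.1, hA₁.2.1]) (by linarith [hA₂.1, hA₂.2.1])
    (by rw [e3]; exact (ratio_le hq hA₁.1 hA₁.2.1 hq₁).trans hE) (by rw [d3]; exact (ratio_le hq hA₂.1 hA₂.2.1 hq₂).trans hE)
    (by rw [← e2]; exact hA₁.2.2) (by rw [← d2]; exact hA₂.2.2) g u₁ u₂ G₁ G₂ hg hg0 ⟨h₁.sob, h₁.eq⟩ ⟨h₂.sob, h₂.eq⟩ ht
  rw [e1', d1', f1, f2, f3]

private theorem near {q : ℝ} (hq : 0 < q) : ∃ ε : ℝ, 0 < ε ∧ ∀ k : ℝ, 0 < k → k ≠ 1 → |k - 1| < ε → GlobalUniqueness q k := by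
  have h1 : max 0 ((1 - q) / (1 + q)) < 1 := by
    refine max_lt one_pos ?_
    rw [div_lt_one (by linarith)]
    linarith
  obtain ⟨ε, hε, hmain⟩ := main5 (le_max_left _ _) h1
  exact ⟨ε, hε, fun k hk hk1 hkε => transfer hq (le_max_right _ _) (hmain k hk hk1 hkε)⟩

private theorem round {κ : ℝ} (hκ : 1 < κ) : ∃ q : ℝ, 0 < q ∧ q < 1 ∧
    ∀ k : ℝ, 1 / κ ≤ k → k ≤ κ → k ≠ 1 → GlobalUniqueness q k := by
  have hL : (κ - 1) / (κ + 1) < 1 := by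
    rw [div_lt_one (by linarith)]
    linarith
  obtain ⟨ε, hε, hε1, hmain⟩ := ND1.main6 hL
  refine ⟨(1 - ε) / (1 + ε), div_pos (by linarith) (by linarith), ?_, ?_⟩
  · rw [div_lt_one (by linarith)]
    linarith
  · intro k hk₁ hk₂ hk1
    have hk : 0 < k := lt_of_lt_of_le (by positivity) hk₁
    have hkκ : 1 ≤ κ * k := by
      have := mul_le_mul_of_nonneg_left hk₁ (by linarith : (0 : ℝ) ≤ κ)
      rwa [mul_one_div_cancel (by linarith)] at this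
    have hE : (1 - (1 - ε) / (1 + ε)) / (1 + (1 - ε) / (1 + ε)) ≤ ε := by
      have : (1 - (1 - ε) / (1 + ε)) / (1 + (1 - ε) / (1 + ε)) = ε := by
        have h2 : (1 + ε : ℝ) ≠ 0 := by linarith
        field_simp
        ring
      exact this.le
    refine transfer (div_pos (by linarith) (by linarith)) hE (hmain k hk hk1 ?_)
    rw [abs_div, abs_of_pos (by linarith : (0 : ℝ) < k + 1), div_le_div_iff₀ (by linarith) (by linarith)]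
    rcases abs_cases (k - 1) with ⟨h, -⟩ | ⟨h, -⟩ <;> rw [h] <;> nlinarith

/-- **Global uniqueness with one measurement for ellipses with axis ratio at least `q`** holds for `(q, k)` in a neighbourhood of the lines
`k = 1` (conductivity close to one, any `q > 0`) and `q = 1` (nearly circular ellipses, any `k`) -/
theorem result :
    (∀ q : ℝ, 0 < q → ∃ ε : ℝ, 0 < ε ∧ ∀ k : ℝ, 0 < k → k ≠ 1 → |k - 1| < ε → GlobalUniqueness q k) ∧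
    (∀ κ : ℝ, 1 < κ → ∃ q : ℝ, 0 < q ∧ q < 1 ∧ ∀ k : ℝ, 1 / κ ≤ k → k ≤ κ → k ≠ 1 → GlobalUniqueness q k) :=
  ⟨fun _ hq => near hq, fun _ hκ => round hκ⟩

end Pool.Agent.Results.MP_2de571_an.WeakContrast
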